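import Mathlib
import Pool.Agent.Y19.TP.Stm

set_option autoImplicit false

/-!
# Job TP-INT: postcritically finite tame polynomials are integral
-/

namespace Pool.Agent.Y83.TP

open Polynomial Function
open Pool.Agent.Y19.TP

theorem coeff_prod_le {U : Type} [NormedField U] [IsUltrametricDist U] (s : Multiset U)
    (h : ∀ z ∈ s, ‖z‖ ≤ 1) (i : ℕ) : ‖((s.map fun a => X - C a).prod).coeff i‖ ≤ 1 := by
  classical
  induction s using Multiset.induction_on generalizing i with
  | empty =>
    simp only [Multiset.map_zero, Multiset.prod_zero, coeff_one]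
    split_ifs <;> simp
  | cons a s ih =>
    have ha : ‖a‖ ≤ 1 := h a (Multiset.mem_cons_self a s)
    have hs : ∀ z ∈ s, ‖z‖ ≤ 1 := fun z hz => h z (Multiset.mem_cons_of_mem hz)
    rw [Multiset.map_cons, Multiset.prod_cons, mul_comm]
    rcases i with _ | i
    · rw [mul_coeff_zero, norm_mul]
      have h1 := ih hs 0
      have h2 : ‖(X - C a : U[X]).coeff 0‖ ≤ 1 := by simpa using ha
      calc _ ≤ 1 * 1 := mul_le_mul h1 h2 (norm_nonneg _) zero_le_one
        _ = 1 := one_mul 1
    · rw [coeff_mul_X_sub_C, sub_eq_add_neg]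
      refine (IsUltrametricDist.norm_add_le_max _ _).trans (max_le (ih hs i) ?_)
      rw [norm_neg, norm_mul]
      calc _ ≤ 1 * 1 := mul_le_mul (ih hs (i + 1)) ha (norm_nonneg _) zero_le_one
        _ = 1 := one_mul 1

theorem norm_eval_eq {U : Type} [NormedField U] [IsAlgClosed U] {f : U[X]} (hf : f.Monic) (y : U)
    (r : ℝ) (h : ∀ z ∈ f.roots, ‖y - z‖ = r) : ‖f.eval y‖ = r ^ f.natDegree := by
  have hsp : f.Splits := IsAlgClosed.splits f
  have h1 : f = (f.roots.map fun a => X - C a).prod := by
    have := hsp.eq_prod_roots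
    rw [hf.leadingCoeff, C_1, one_mul] at this
    exact this
  have h2 : f.eval y = (f.roots.map fun a => y - a).prod := by
    conv_lhs => rw [h1]
    rw [eval_multiset_prod, Multiset.map_map]
    simp
  rw [h2, ← coe_nnnorm]
  have h3 : ‖(f.roots.map fun a => y - a).prod‖₊ = (f.roots.map fun a => ‖y - a‖₊).prod := by
    have := map_multiset_prod (nnnormHom (α := U)) (f.roots.map fun a => y - a)
    rw [Multiset.map_map] at this
    exact this
  rw [h3]
  have h4 : ((f.roots.map fun a => ‖y - a‖₊).prod : NNReal) = ‖(0 : U)‖₊ ^ 0 *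
      (f.roots.map fun a => ‖y - a‖₊).prod := by simp
  have h5 : (((f.roots.map fun a => ‖y - a‖₊).prod : NNReal) : ℝ) =
      (f.roots.map fun a => ‖y - a‖).prod := by
    rw [NNReal.coe_multiset_prod, Multiset.map_map]
    rfl
  rw [h5, Multiset.map_congr rfl h, Multiset.map_const', Multiset.prod_replicate,
    hsp.natDegree_eq_card_roots]

theorem t_INT : ROLLE → INT := by
  intro hR U _ _ _ _ d hd hT f hf hdeg hc hP
  classical
  have hf0 : f ≠ 0 := hf.ne_zero
  have hsp : f.Splits := IsAlgClosed.splits f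
  have hcard : f.roots.card = d := by rw [← hsp.natDegree_eq_card_roots, hdeg]
  have hprod : f = (f.roots.map fun a => X - C a).prod := by
    have := hsp.eq_prod_roots
    rw [hf.leadingCoeff, C_1, one_mul] at this
    exact this
  have hmem : ∀ z : U, z ∈ f.roots ↔ f.eval z = 0 := fun z => by
    rw [mem_roots hf0, IsRoot.def]
  -- the sum of the roots is zero
  have hsum : f.roots.sum = 0 := by
    have h1 := multiset_prod_X_sub_C_nextCoeff f.roots
    rw [← hprod, nextCoeff_of_natDegree_pos (by omega), hdeg, hc] at h1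
    rw [eq_comm, neg_eq_zero] at h1
    exact h1
  -- the largest distance of two roots
  have hne : f.roots.toFinset.Nonempty := by
    obtain ⟨z, hz⟩ := Multiset.card_pos_iff_exists_mem.mp (show 0 < f.roots.card by omega)
    exact ⟨z, Multiset.mem_toFinset.mpr hz⟩
  obtain ⟨⟨x, w⟩, hxw, hmax⟩ := Finset.exists_max_image (f.roots.toFinset ×ˢ f.roots.toFinset)
    (fun q => ‖q.1 - q.2‖) (hne.product hne)
  rw [Finset.mem_product, Multiset.mem_toFinset, Multiset.mem_toFinset] at hxw
  obtain ⟨hx, hw⟩ := hxw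
  simp only at hx hw
  have hmax' : ∀ a ∈ f.roots, ∀ b ∈ f.roots, ‖a - b‖ ≤ ‖x - w‖ := by
    intro a ha b hb
    exact hmax (a, b) (Finset.mem_product.mpr
      ⟨Multiset.mem_toFinset.mpr ha, Multiset.mem_toFinset.mpr hb⟩)
  -- all roots have norm at most this distance
  have hroot : ∀ z ∈ f.roots, ‖z‖ ≤ ‖x - w‖ := by
    intro z hz
    have h1 : (d : U) * z = (f.roots.map fun a => z - a).sum := by
      rw [Multiset.sum_map_sub, Multiset.map_const', Multiset.sum_replicate, hcard,
        Multiset.map_id', hsum, sub_zero, nsmul_eq_mul]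
    have h2 : ∀ s : Multiset U, (∀ a ∈ s, ‖z - a‖ ≤ ‖x - w‖) →
        ‖(s.map fun a => z - a).sum‖ ≤ ‖x - w‖ := by
      intro s
      induction s using Multiset.induction_on with
      | empty => intro _; simp
      | cons a s ih =>
        intro h
        rw [Multiset.map_cons, Multiset.sum_cons]
        exact (IsUltrametricDist.norm_add_le_max _ _).trans
          (max_le (h a (Multiset.mem_cons_self a s))
            (ih fun b hb => h b (Multiset.mem_cons_of_mem hb)))
    have h3 := h2 f.roots (fun a ha => hmax' z hz a ha)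
    rw [← h1, norm_mul, hT d (by omega) le_rfl, one_mul] at h3
    exact h3
  -- the distance is at most one
  have hle : ‖x - w‖ ≤ 1 := by
    by_contra hgt
    push Not at hgt
    have hwx : w ≠ x := by
      rintro rfl
      simp at hgt
      linarith
    obtain ⟨c, hc0, hc1, hc2⟩ := hR U d (by omega) hT f hdeg w x hwx ((hmem w).mp hw)
      ((hmem x).mp hx)
    have hcz : ∀ z ∈ f.roots, ‖c - z‖ = ‖x - w‖ := by
      intro z hz
      refine le_antisymm ?_ (hc2 z ((hmem z).mp hz))
      have : c - z = (c - w) + (w - z) := by ring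
      rw [this]
      exact (IsUltrametricDist.norm_add_le_max _ _).trans (max_le hc1 (hmax' w hw z hz))
    have hFc := norm_eval_eq hf c _ hcz
    rw [hdeg] at hFc
    -- growth
    have hgrow : ∀ y : U, ‖x - w‖ < ‖y‖ → ‖y‖ < ‖f.eval y‖ := by
      intro y hy
      have h1 : ∀ z ∈ f.roots, ‖y - z‖ = ‖y‖ := by
        intro z hz
        have hlt : ‖z‖ < ‖y‖ := (hroot z hz).trans_lt hy
        rw [sub_eq_add_neg]
        rw [IsUltrametricDist.norm_add_eq_max_of_norm_ne_norm (by rw [norm_neg]; exact hlt.ne')]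
        rw [norm_neg, max_eq_left hlt.le]
      rw [norm_eval_eq hf y _ h1, hdeg]
      have hy1 : 1 < ‖y‖ := hgt.trans hy
      calc ‖y‖ = ‖y‖ ^ 1 := (pow_one _).symm
        _ < ‖y‖ ^ d := pow_lt_pow_right₀ hy1 (by omega)
    have hbig : ∀ n : ℕ, ‖x - w‖ < ‖(fun u : U => f.eval u)^[n + 1] c‖ := by
      intro n
      induction n with
      | zero =>
        simp only [zero_add, iterate_one]
        rw [hFc]
        calc ‖x - w‖ = ‖x - w‖ ^ 1 := (pow_one _).symm
          _ < ‖x - w‖ ^ d := pow_lt_pow_right₀ hgt (by omega)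
      | succ n ih =>
        rw [iterate_succ_apply']
        exact ih.trans (hgrow _ ih)
    have hmono : StrictMono fun n : ℕ => ‖(fun u : U => f.eval u)^[n + 1] c‖ := by
      apply strictMono_nat_of_lt_succ
      intro n
      rw [iterate_succ_apply' _ (n + 1)]
      exact hgrow _ (hbig n)
    have hfin := hP c hc0
    have hinj : Function.Injective fun n : ℕ => (fun u : U => f.eval u)^[n + 1] c := by
      intro a b hab
      apply hmono.injective
      exact congrArg norm hab
    have hinf := Set.infinite_range_of_injective hinj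
    apply hinf
    apply hfin.subset
    rintro _ ⟨n, rfl⟩
    exact ⟨n + 1, rfl⟩
  have hcoef : ∀ i, ‖f.coeff i‖ ≤ 1 := by
    intro i
    rw [hprod]
    exact coeff_prod_le f.roots (fun z hz => (hroot z hz).trans hle) i
  refine ⟨hcoef, ?_⟩
  intro c hc0
  by_contra hgt
  push Not at hgt
  have hnd : (derivative f).natDegree < d - 1 + 1 := by
    have := natDegree_derivative_le f
    omega
  rw [eval_eq_sum_range' hnd, Finset.sum_range_succ] at hc0
  have hlead : ‖(derivative f).coeff (d - 1) * c ^ (d - 1)‖ = ‖c‖ ^ (d - 1) := by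
    rw [coeff_derivative, norm_mul, norm_mul, norm_pow]
    have h1 : f.coeff (d - 1 + 1) = 1 := by
      rw [Nat.sub_add_cancel (by omega), ← hdeg]
      exact hf.coeff_natDegree
    have h2 : ((d - 1 : ℕ) : U) + 1 = (d : U) := by
      rw [← Nat.cast_succ]
      congr 1
      omega
    rw [h1, h2, hT d (by omega) le_rfl]
    simp
  have hrest : ‖∑ i ∈ Finset.range (d - 1), (derivative f).coeff i * c ^ i‖ ≤ ‖c‖ ^ (d - 2) := by
    apply IsUltrametricDist.norm_sum_le_of_forall_le_of_nonneg (by positivity)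
    intro i hi
    rw [Finset.mem_range] at hi
    rw [coeff_derivative, norm_mul, norm_mul, norm_pow]
    have h1 : ‖((i : ℕ) : U) + 1‖ ≤ 1 := by
      rw [← Nat.cast_succ]
      exact IsUltrametricDist.norm_natCast_le_one U _
    have h2 : ‖c‖ ^ i ≤ ‖c‖ ^ (d - 2) := pow_le_pow_right₀ hgt.le (by omega)
    have h3 : ‖f.coeff (i + 1)‖ * ‖((i : ℕ) : U) + 1‖ ≤ 1 * 1 :=
      mul_le_mul (hcoef _) h1 (norm_nonneg _) zero_le_one
    calc _ ≤ (1 * 1) * ‖c‖ ^ (d - 2) := mul_le_mul h3 h2 (by positivity) (by norm_num)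
      _ = _ := by ring
  have heq : (derivative f).coeff (d - 1) * c ^ (d - 1) =
      - ∑ i ∈ Finset.range (d - 1), (derivative f).coeff i * c ^ i := by
    linear_combination hc0
  rw [heq, norm_neg] at hlead
  rw [hlead] at hrest
  have : ‖c‖ ^ (d - 2) < ‖c‖ ^ (d - 1) := pow_lt_pow_right₀ hgt (by omega)
  linarith

end Pool.Agent.Y83.TP
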